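import Pool.Agent.H505R3.Asym8

set_option autoImplicit false

namespace Pool.Agent.Results.MP_f1a94e_nt.RoughEvenParity

/-- Let `E` be any property of positive integers such that `a b` has it whenever neither `a` nor
`b` has it (for instance: the number of prime factors is even). For all `X ≥ X₀`, with `X₀` not
depending on `E`, at least `X^(1/3) / log^139 X` of the `m ≤ X` are such that `m^2 + 1` has the
property `E` and all prime factors of `m^2 + 1` exceed `X^(1/8000)`. -/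
theorem result : ∃ X₀ : ℕ, ∀ E : ℕ → Prop,
    (∀ a b : ℕ, a ≠ 0 → b ≠ 0 → ¬ E a → ¬ E b → E (a * b)) → ∀ X : ℕ, X₀ ≤ X →
      (X : ℝ) ^ ((1 : ℝ) / 3) / Real.log X ^ 139 ≤
        (({m : ℕ | m ≤ X ∧ 0 < m ∧ 8 ∣ m ∧
          (∀ p : ℕ, p.Prime → p ∣ m ^ 2 + 1 → (X : ℝ) ^ ((1 : ℝ) / 8000) < p) ∧
          E (m ^ 2 + 1)} : Set ℕ).ncard : ℝ) := by
  exact Pool.Agent.H505R3.main8

end Pool.Agent.Results.MP_f1a94e_nt.RoughEvenParity
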